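import Mathlib
import Pool.Agent.H712R2.MultiCoarse2

/-!
# Sharp coarse connectivity of the Multibrot sets
-/

set_option autoImplicit false

open Complex Set Topology Filter Bornology N62a1eb23
open Pool.Agent.H712R2

namespace Pool.Agent.TH937.SC

/-- outer radius -/
noncomputable def RR (d : ℕ) : ℝ := 1 + 1 / ((d:ℝ) - 1)

/-- angular error -/
noncomputable def ee (d : ℕ) : ℝ := RR d * (2 * Real.pi / ((d:ℝ) - 1))

theorem RR_pos {d : ℕ} (hd : 2 ≤ d) : 1 < RR d := by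
  have hdr : (2:ℝ) ≤ d := by exact_mod_cast hd
  have h0 : 0 < (d:ℝ) - 1 := by linarith
  unfold RR
  have : 0 < 1 / ((d:ℝ) - 1) := by positivity
  linarith

theorem rr_lt_one {d : ℕ} (hd : 2 ≤ d) : rr d < 1 := by
  have h1 : rr d ≤ sr d := by
    unfold rr
    have := pow_nonneg (sr_pos d).le d
    linarith
  linarith [sr_lt_one hd]

/-- A piece attached to `x`: a connected subset of the Multibrot set, in the direction `u`. -/
structure Piece (d : ℕ) (x : ℂ) (V : Set ℂ) (x' u : ℂ) (rx : ℝ) : Prop where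
  pre : IsPreconnected V
  sub : V ⊆ multibrotSet d
  hx : x ∈ V
  hx' : x' ∈ V
  small : ‖x'‖ ≤ rr d
  norm_u : ‖u‖ = 1
  eq : x = rx * u
  hr1 : rr d ≤ rx
  hr2 : rx ≤ RR d
  near : ∀ a ∈ V, ∃ ra : ℝ, rr d ≤ ra ∧ ra ≤ RR d ∧ ‖a - ra * u‖ ≤ ee d

theorem exp_split (z : ℂ) : Complex.exp z = (Real.exp z.re : ℝ) * Complex.exp (z.im * I) := by
  rw [Complex.ofReal_exp, ← Complex.exp_add, Complex.re_add_im]

theorem exists_sector {d : ℕ} (hd : 2 ≤ d) {x : ℂ} (hx : x ∈ multibrotSet d) (hxr : rr d < ‖x‖) :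
    ∃ V x' u rx, Piece d x V x' u rx := by
  have hdr : (2:ℝ) ≤ d := by exact_mod_cast hd
  have h0 : 0 < (d:ℝ) - 1 := by linarith
  have hrr := rr_pos hd
  have hxpos : 0 < ‖x‖ := lt_trans hrr hxr
  have hx0 : x ≠ 0 := norm_pos_iff.mp hxpos
  set z := Complex.log x with hz
  have hexpz : Complex.exp z = x := Complex.exp_log hx0
  have hzre : z.re = Real.log ‖x‖ := Complex.log_re x
  set j : ℤ := ⌊z.im * ((d:ℝ) - 1) / (2 * Real.pi)⌋ with hj
  have hpi := Real.pi_pos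
  have hj1 : th d j ≤ z.im := by
    have := Int.floor_le (z.im * ((d:ℝ) - 1) / (2 * Real.pi))
    rw [← hj, le_div_iff₀ (by positivity)] at this
    unfold th
    rw [div_le_iff₀ h0]
    linarith
  have hj2 : z.im ≤ th d (j + 1) := by
    have := (Int.lt_floor_add_one (z.im * ((d:ℝ) - 1) / (2 * Real.pi))).le
    rw [← hj, div_le_iff₀ (by positivity)] at this
    unfold th
    rw [le_div_iff₀ h0]
    push_cast
    linarith
  have hrr2 : Real.log (rr d) ≤ Real.log 2 := by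
    apply Real.log_le_log hrr
    linarith [rr_lt_one hd]
  refine ⟨multibrotSet d ∩ Complex.exp '' (KK d j), Complex.exp ⟨Real.log (rr d), z.im⟩,
    Complex.exp (z.im * I), ‖x‖, conn_piece hd j, inter_subset_left,
    ⟨hx, z, ⟨⟨?_, ?_⟩, ⟨hj1, hj2⟩⟩, hexpz⟩, ⟨?_, ?_⟩, ?_, ?_, ?_, hxr.le, ?_, ?_⟩
  · rw [hzre]; exact Real.log_le_log hrr hxr.le
  · rw [hzre]; exact Real.log_le_log hxpos (norm_le_two hd hx)
  · apply disc_subset hd
    rw [norm_exp_eq]
    simp [Real.exp_log hrr]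
  · exact ⟨(⟨Real.log (rr d), z.im⟩ : ℂ), ⟨⟨le_rfl, hrr2⟩, ⟨hj1, hj2⟩⟩, rfl⟩
  · rw [norm_exp_eq]
    simp [Real.exp_log hrr]
  · exact Complex.norm_exp_ofReal_mul_I _
  · conv_lhs => rw [← hexpz, exp_split z]
    rw [hzre, Real.exp_log hxpos]
  · exact norm_le_outer hd hx
  · rintro _ ⟨haM, a, ha, rfl⟩
    have hRa := norm_le_outer hd haM
    rw [norm_exp_eq] at hRa
    have hra : rr d ≤ Real.exp a.re := by
      rw [← Real.exp_log hrr]; exact Real.exp_le_exp.mpr ha.1.1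
    refine ⟨Real.exp a.re, hra, hRa, ?_⟩
    have h1 : ((Real.exp a.re : ℝ) : ℂ) * Complex.exp (z.im * I) = Complex.exp ⟨a.re, z.im⟩ := by
      rw [exp_split ⟨a.re, z.im⟩]
    rw [h1, ← dist_eq_norm]
    refine dist_exp_le.trans ?_
    simp only [sub_self, abs_zero, zero_add]
    have h2 : |a.im - z.im| ≤ 2 * Real.pi / ((d:ℝ) - 1) := by
      rw [← th_sub hd j, abs_le]
      have ha1 : th d j ≤ a.im := ha.2.1
      have ha2 : a.im ≤ th d (j + 1) := ha.2.2
      constructor <;> linarith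
    unfold ee RR
    gcongr

/-- distances of two points in given directions -/
theorem dist_dirs {d : ℕ} (hd : 2 ≤ d) {u w : ℂ} {ra rb rx ry : ℝ}
    (hu : ‖u‖ = 1) (hw : ‖w‖ = 1) (ha1 : rr d ≤ ra) (ha2 : ra ≤ RR d) (hb1 : rr d ≤ rb)
    (hb2 : rb ≤ RR d) (hx1 : rr d ≤ rx) (hy1 : rr d ≤ ry) :
    ‖(ra:ℂ) * u - rb * w‖ ≤ (RR d / rr d) * ‖(rx:ℂ) * u - ry * w‖ + (RR d - rr d) := by
  have hrr := rr_pos hd
  have hR := RR_pos hd
  have h1 : ‖(ra:ℂ) * u - rb * w‖ ≤ RR d * ‖u - w‖ + (RR d - rr d) := by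
    have e : (ra:ℂ) * u - rb * w = ((ra - rb : ℝ) : ℂ) * u + (rb : ℂ) * (u - w) := by
      push_cast; ring
    rw [e]
    refine (norm_add_le _ _).trans ?_
    rw [norm_mul, norm_mul, hu, Complex.norm_real, Complex.norm_real, Real.norm_eq_abs,
      Real.norm_eq_abs, abs_of_pos (lt_of_lt_of_le hrr hb1)]
    have h2 : |ra - rb| ≤ RR d - rr d := by
      rw [abs_le]; constructor <;> linarith
    have h3 : rb * ‖u - w‖ ≤ RR d * ‖u - w‖ := by gcongr
    linarith
  have h4 : rr d * ‖u - w‖ ≤ ‖(rx:ℂ) * u - ry * w‖ := by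
    have hsq : (rr d * ‖u - w‖) ^ 2 ≤ ‖(rx:ℂ) * u - ry * w‖ ^ 2 := by
      have hinner : ‖u - w‖ ^ 2 = 2 - 2 * (u * (starRingEnd ℂ) w).re := by
        rw [← Complex.normSq_eq_norm_sq, Complex.normSq_sub, Complex.normSq_eq_norm_sq,
          Complex.normSq_eq_norm_sq, hu, hw]
        ring
      have hinner2 : ‖(rx:ℂ) * u - ry * w‖ ^ 2
          = rx ^ 2 + ry ^ 2 - 2 * rx * ry * (u * (starRingEnd ℂ) w).re := by
        rw [← Complex.normSq_eq_norm_sq, Complex.normSq_sub, Complex.normSq_eq_norm_sq,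
          Complex.normSq_eq_norm_sq, norm_mul, norm_mul, hu, hw, Complex.norm_real,
          Complex.norm_real, Real.norm_eq_abs, Real.norm_eq_abs, mul_one, mul_one, sq_abs, sq_abs,
          map_mul, Complex.conj_ofReal]
        have e : (rx:ℂ) * u * (ry * (starRingEnd ℂ) w)
            = ((rx * ry : ℝ) : ℂ) * (u * (starRingEnd ℂ) w) := by push_cast; ring
        rw [e, Complex.re_ofReal_mul]
        ring
      have hc : (u * (starRingEnd ℂ) w).re ≤ 1 := by
        have h5 := Complex.re_le_norm (u * (starRingEnd ℂ) w)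
        rw [norm_mul, RCLike.norm_conj, hu, hw] at h5
        linarith
      rw [mul_pow, hinner, hinner2]
      set t := (u * (starRingEnd ℂ) w).re
      have h6 : rr d ^ 2 ≤ rx * ry := by
        calc rr d ^ 2 = rr d * rr d := sq _
          _ ≤ rx * ry := by gcongr; linarith
      nlinarith [sq_nonneg (rx - ry), mul_le_mul_of_nonneg_right h6 (show 0 ≤ 2 - 2 * t by linarith)]
    exact le_of_sq_le_sq hsq (norm_nonneg _)
  have h5 : RR d * ‖u - w‖ ≤ (RR d / rr d) * ‖(rx:ℂ) * u - ry * w‖ := by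
    rw [div_mul_eq_mul_div, le_div_iff₀ hrr]
    calc RR d * ‖u - w‖ * rr d = RR d * (rr d * ‖u - w‖) := by ring
      _ ≤ RR d * ‖(rx:ℂ) * u - ry * w‖ := by gcongr
  linarith

end Pool.Agent.TH937.SC
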