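import Mathlib
import Pool.Agent.TH937.SC.Main

/-!
# Sharp coarse connectivity of the Multibrot sets, II
-/

set_option autoImplicit false

open Complex Set Topology Filter Bornology N62a1eb23
open Pool.Agent.H712R2

namespace Pool.Agent.TH937.SC

/-- the bound for the diameter -/
noncomputable def Bd (d : ℕ) (δ : ℝ) : ℝ := (RR d / rr d) * δ + (RR d - rr d) + 2 * ee d

theorem ee_nonneg {d : ℕ} (hd : 2 ≤ d) : 0 ≤ ee d := by
  have hdr : (2:ℝ) ≤ d := by exact_mod_cast hd
  have h0 : 0 < (d:ℝ) - 1 := by linarith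
  have := RR_pos hd
  unfold ee
  positivity

theorem ratio_ge {d : ℕ} (hd : 2 ≤ d) : 1 ≤ RR d / rr d := by
  rw [one_le_div (rr_pos hd)]
  linarith [RR_pos hd, rr_lt_one hd]

theorem Bd_ge {d : ℕ} (hd : 2 ≤ d) {δ : ℝ} (hδ : 0 ≤ δ) : δ ≤ Bd d δ := by
  have h1 := ratio_ge hd
  have h2 := ee_nonneg hd
  have h3 : rr d ≤ RR d := by linarith [RR_pos hd, rr_lt_one hd]
  unfold Bd
  nlinarith

theorem Bd_mono {d : ℕ} (hd : 2 ≤ d) {δ δ' : ℝ} (h : δ ≤ δ') : Bd d δ ≤ Bd d δ' := by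
  have h1 := ratio_ge hd
  unfold Bd
  have : (RR d / rr d) * δ ≤ (RR d / rr d) * δ' := by gcongr
  linarith

/-- A small piece attached to `x`: either a single point of the inner disc or a sector piece. -/
def Good (d : ℕ) (x : ℂ) (V : Set ℂ) (x' : ℂ) : Prop :=
  (V = {x} ∧ x' = x ∧ ‖x‖ ≤ rr d) ∨ ∃ u rx, Piece d x V x' u rx

theorem exists_good {d : ℕ} (hd : 2 ≤ d) {x : ℂ} (hx : x ∈ multibrotSet d) :
    ∃ V x', Good d x V x' := by
  by_cases hxr : ‖x‖ ≤ rr d
  · exact ⟨{x}, x, Or.inl ⟨rfl, rfl, hxr⟩⟩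
  · push Not at hxr
    obtain ⟨V, x', u, rx, h⟩ := exists_sector hd hx hxr
    exact ⟨V, x', Or.inr ⟨u, rx, h⟩⟩

theorem Good.basic {d : ℕ} {x : ℂ} {V : Set ℂ} {x' : ℂ} (h : Good d x V x')
    (hx : x ∈ multibrotSet d) :
    IsPreconnected V ∧ V ⊆ multibrotSet d ∧ x ∈ V ∧ x' ∈ V ∧ ‖x'‖ ≤ rr d := by
  rcases h with ⟨rfl, rfl, h3⟩ | ⟨u, rx, h⟩
  · exact ⟨isPreconnected_singleton, by simpa using hx, rfl, rfl, h3⟩
  · exact ⟨h.pre, h.sub, h.hx, h.hx', h.small⟩

theorem near_self {d : ℕ} {x y : ℂ} {W : Set ℂ} {y' u : ℂ} {ry : ℝ}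
    (h : Piece d y W y' u ry) : ∀ b ∈ W, dist x b ≤ dist x y + (RR d - rr d) + ee d := by
  intro b hb
  obtain ⟨rb, h1, h2, h3⟩ := h.near b hb
  have h4 : dist y ((rb:ℂ) * u) ≤ RR d - rr d := by
    rw [dist_eq_norm, h.eq, ← sub_mul, norm_mul, h.norm_u, mul_one, ← Complex.ofReal_sub,
      Complex.norm_real, Real.norm_eq_abs, abs_le]
    have := h.hr1
    have := h.hr2
    constructor <;> linarith
  have h5 : dist ((rb:ℂ) * u) b ≤ ee d := by
    rw [dist_comm, dist_eq_norm]; exact h3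
  have := dist_triangle4 x y ((rb:ℂ) * u) b
  linarith

theorem good_dist {d : ℕ} (hd : 2 ≤ d) {x y : ℂ} {V W : Set ℂ} {x' y' : ℂ}
    (hV : Good d x V x') (hW : Good d y W y') :
    ∀ a ∈ V, ∀ b ∈ W, dist a b ≤ Bd d (dist x y) := by
  have h1 := ratio_ge hd
  have h2 := ee_nonneg hd
  have h3 : rr d ≤ RR d := by linarith [RR_pos hd, rr_lt_one hd]
  have h4 : dist x y ≤ (RR d / rr d) * dist x y := by
    have := dist_nonneg (x := x) (y := y)
    nlinarith
  intro a ha b hb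
  rcases hV with ⟨rfl, rfl, h5⟩ | ⟨u, rx, hV⟩ <;> rcases hW with ⟨rfl, rfl, h6⟩ | ⟨w, ry, hW⟩
  · rw [mem_singleton_iff] at ha hb
    subst ha; subst hb
    exact Bd_ge hd dist_nonneg
  · rw [mem_singleton_iff] at ha
    subst ha
    have := near_self (x := a) hW b hb
    unfold Bd
    linarith
  · rw [mem_singleton_iff] at hb
    subst hb
    have := near_self (x := b) hV a ha
    rw [dist_comm b a, dist_comm b x] at this
    unfold Bd
    linarith
  · obtain ⟨ra, a1, a2, a3⟩ := hV.near a ha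
    obtain ⟨rb, b1, b2, b3⟩ := hW.near b hb
    have h7 := dist_dirs hd hV.norm_u hW.norm_u a1 a2 b1 b2 hV.hr1 hW.hr1
    rw [← hV.eq, ← hW.eq, ← dist_eq_norm, ← dist_eq_norm] at h7
    have h8 : dist a ((ra:ℂ) * u) ≤ ee d := by rw [dist_eq_norm]; exact a3
    have h9 : dist ((rb:ℂ) * w) b ≤ ee d := by rw [dist_comm, dist_eq_norm]; exact b3
    have := dist_triangle4 a ((ra:ℂ) * u) ((rb:ℂ) * w) b
    unfold Bd
    linarith

theorem segment_dist {a x' y' : ℂ} {B : ℝ} (h1 : dist a x' ≤ B) (h2 : dist a y' ≤ B) :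
    ∀ b ∈ segment ℝ x' y', dist a b ≤ B := by
  intro b hb
  have h3 : segment ℝ x' y' ⊆ Metric.closedBall a B :=
    (convex_closedBall a B).segment_subset (by rw [Metric.mem_closedBall, dist_comm]; exact h1)
      (by rw [Metric.mem_closedBall, dist_comm]; exact h2)
  have := h3 hb
  rwa [Metric.mem_closedBall, dist_comm] at this

theorem upper {d : ℕ} (hd : 2 ≤ d) {x y : ℂ} (hx : x ∈ multibrotSet d)
    (hy : y ∈ multibrotSet d) :
    ∃ S : Set ℂ, S ⊆ multibrotSet d ∧ IsCompact S ∧ IsConnected S ∧ x ∈ S ∧ y ∈ S ∧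
      Metric.diam S ≤ Bd d (dist x y) := by
  obtain ⟨V, x', hV⟩ := exists_good hd hx
  obtain ⟨W, y', hW⟩ := exists_good hd hy
  obtain ⟨hVp, hVM, hxV, hx'V, hx'r⟩ := hV.basic hx
  obtain ⟨hWp, hWM, hyW, hy'W, hy'r⟩ := hW.basic hy
  set L : Set ℂ := segment ℝ x' y' with hL
  have hLM : L ⊆ multibrotSet d := by
    intro c hc
    apply disc_subset hd
    have h1 : L ⊆ Metric.closedBall (0:ℂ) (rr d) :=
      (convex_closedBall (0:ℂ) (rr d)).segment_subset (by simpa using hx'r) (by simpa using hy'r)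
    simpa using h1 hc
  have hLp : IsPreconnected L := (convex_segment x' y').isPreconnected
  set S0 : Set ℂ := (V ∪ L) ∪ W with hS0
  have hS0M : S0 ⊆ multibrotSet d := union_subset (union_subset hVM hLM) hWM
  have hS0p : IsPreconnected S0 := by
    apply IsPreconnected.union y'
    · exact Or.inr (right_mem_segment ℝ x' y')
    · exact hy'W
    · exact IsPreconnected.union x' hx'V (left_mem_segment ℝ x' y') hVp hLp
    · exact hWp
  set B := Bd d (dist x y) with hB
  have hVV : ∀ a ∈ V, ∀ b ∈ V, dist a b ≤ B := fun a ha b hb =>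
    (good_dist hd hV hV a ha b hb).trans (Bd_mono hd (by rw [dist_self]; exact dist_nonneg))
  have hWW : ∀ a ∈ W, ∀ b ∈ W, dist a b ≤ B := fun a ha b hb =>
    (good_dist hd hW hW a ha b hb).trans (Bd_mono hd (by rw [dist_self]; exact dist_nonneg))
  have hVW : ∀ a ∈ V, ∀ b ∈ W, dist a b ≤ B := good_dist hd hV hW
  have hWV : ∀ a ∈ W, ∀ b ∈ V, dist a b ≤ B := fun a ha b hb => by
    rw [dist_comm]; exact hVW b hb a ha
  have hVL : ∀ a ∈ V, ∀ b ∈ L, dist a b ≤ B := fun a ha =>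
    segment_dist (hVV a ha x' hx'V) (hVW a ha y' hy'W)
  have hWL : ∀ a ∈ W, ∀ b ∈ L, dist a b ≤ B := fun a ha =>
    segment_dist (hWV a ha x' hx'V) (hWW a ha y' hy'W)
  have hLL : ∀ a ∈ L, ∀ b ∈ L, dist a b ≤ B := by
    intro a ha
    refine segment_dist ?_ ?_
    · rw [dist_comm]; exact hVL x' hx'V a ha
    · rw [dist_comm]; exact hWL y' hy'W a ha
  have hdiam : ∀ a ∈ S0, ∀ b ∈ S0, dist a b ≤ B := by
    intro a ha b hb
    rcases ha with (ha | ha) | ha <;> rcases hb with (hb | hb) | hb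
    · exact hVV a ha b hb
    · exact hVL a ha b hb
    · exact hVW a ha b hb
    · rw [dist_comm]; exact hVL b hb a ha
    · exact hLL a ha b hb
    · rw [dist_comm]; exact hWL b hb a ha
    · rw [dist_comm]; exact hVW b hb a ha
    · exact hWL a ha b hb
    · exact hWW a ha b hb
  have hclM : closure S0 ⊆ multibrotSet d :=
    (isCompact_multibrot hd).isClosed.closure_subset_iff.mpr hS0M
  have hB0 : 0 ≤ B := le_trans dist_nonneg (Bd_ge hd dist_nonneg)
  refine ⟨closure S0, hclM, ?_, ⟨⟨x, subset_closure (Or.inl (Or.inl hxV))⟩, hS0p.closure⟩,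
    subset_closure (Or.inl (Or.inl hxV)), subset_closure (Or.inr hyW), ?_⟩
  · exact (isCompact_multibrot hd).of_isClosed_subset isClosed_closure hclM
  · rw [Metric.diam_closure]
    exact Metric.diam_le_of_forall_dist_le hB0 hdiam

/-- `1 - (n - 1) n ^ (- n / (n - 1))` -/
noncomputable def hh (d : ℕ) : ℝ := 1 - ((d:ℝ) - 1) * (d:ℝ) ^ (-((d:ℝ) / ((d:ℝ) - 1)))

theorem hh_eq {d : ℕ} (hd : 2 ≤ d) : hh d = 1 - rr d := by
  have hdr : (2:ℝ) ≤ d := by exact_mod_cast hd
  have h0 : 0 < (d:ℝ) - 1 := by linarith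
  have hd0 : (0:ℝ) < d := by linarith
  have h1 : (d:ℝ) ^ (-((d:ℝ) / ((d:ℝ) - 1))) = sr d / d := by
    rw [Real.rpow_def_of_pos hd0]
    unfold sr
    rw [eq_div_iff hd0.ne']
    calc Real.exp (Real.log d * -((d:ℝ) / ((d:ℝ) - 1))) * d
        = Real.exp (Real.log d * -((d:ℝ) / ((d:ℝ) - 1))) * Real.exp (Real.log d) := by
          rw [Real.exp_log hd0]
      _ = Real.exp (Real.log d * -((d:ℝ) / ((d:ℝ) - 1)) + Real.log d) := (Real.exp_add _ _).symm
      _ = Real.exp (-(Real.log d / ((d:ℝ) - 1))) := by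
          congr 1
          field_simp
          ring
  unfold hh
  rw [h1, rr_eq hd]
  field_simp

theorem log_add_one_sq {x : ℝ} (hx : 2 ≤ x) : (Real.log x + 1) ^ 2 ≤ 4 * (x - 1) := by
  have h0 : 0 < x := by linarith
  have hs : 0 < √x := Real.sqrt_pos.2 h0
  have hs2 : √x ^ 2 = x := Real.sq_sqrt h0.le
  have h1 : Real.log x = 2 * Real.log (√x) := by
    conv_lhs => rw [← hs2]
    rw [Real.log_pow]; push_cast; ring
  have h2 := Real.log_le_sub_one_of_pos hs
  have h3 : 0 ≤ Real.log x := Real.log_nonneg (by linarith)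
  have h4 : Real.log x + 1 ≤ 2 * √x - 1 := by linarith
  have h5 : (5:ℝ) / 4 ≤ √x := by
    rw [Real.le_sqrt (by norm_num) h0.le]; norm_num; linarith
  calc (Real.log x + 1) ^ 2 ≤ (2 * √x - 1) ^ 2 := by gcongr
    _ = 4 * √x ^ 2 - 4 * √x + 1 := by ring
    _ ≤ 4 * (x - 1) := by rw [hs2]; linarith

theorem hh_le {d : ℕ} (hd : 2 ≤ d) : hh d ≤ (1 + Real.log d) / d := by
  have hdr : (2:ℝ) ≤ d := by exact_mod_cast hd
  have h0 : 0 < (d:ℝ) - 1 := by linarith
  have hd0 : (0:ℝ) < d := by linarith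
  rw [hh_eq hd, rr_eq hd]
  have h1 := sr_ge d
  have h2 : (0:ℝ) ≤ 1 - 1 / d := by
    rw [sub_nonneg, div_le_one hd0]; linarith
  have h3 : (1 - Real.log d / (d - 1)) * (1 - 1 / d) ≤ sr d * (1 - 1 / d) := by gcongr
  have h4 : (1 - Real.log d / (d - 1)) * (1 - 1 / (d:ℝ)) = 1 - (1 + Real.log d) / d := by
    field_simp
    ring
  linarith

theorem hh_ge {d : ℕ} (hd : 2 ≤ d) :
    (1 + Real.log d) / d - 2 * (Real.log d / d) ^ 2 ≤ hh d := by
  have hdr : (2:ℝ) ≤ d := by exact_mod_cast hd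
  have h0 : 0 < (d:ℝ) - 1 := by linarith
  have hd0 : (0:ℝ) < d := by linarith
  have hlog : 0 ≤ Real.log d := Real.log_nonneg (by linarith)
  rw [hh_eq hd, rr_eq hd]
  set t := Real.log d / ((d:ℝ) - 1) with ht
  have ht0 : 0 ≤ t := by positivity
  have h1 : sr d ≤ 1 - t + t ^ 2 / 2 := by
    unfold sr
    rw [← ht]
    have h5 := Real.quadratic_le_exp_of_nonneg ht0
    rw [Real.exp_neg, inv_le_comm₀ (Real.exp_pos _) (by nlinarith [sq_nonneg (t - 1)])]
    refine le_trans ?_ h5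
    rw [inv_le_iff_one_le_mul₀ (by nlinarith [sq_nonneg (t - 1)])]
    nlinarith [sq_nonneg (t ^ 2), sq_nonneg t]
  have h2 : (0:ℝ) ≤ 1 - 1 / d := by
    rw [sub_nonneg, div_le_one hd0]; linarith
  have h2' : 1 - 1 / (d:ℝ) ≤ 1 := by
    have : 0 < 1 / (d:ℝ) := by positivity
    linarith
  have h3 : sr d * (1 - 1 / d) ≤ (1 - t) * (1 - 1 / d) + t ^ 2 / 2 := by
    calc sr d * (1 - 1 / d) ≤ (1 - t + t ^ 2 / 2) * (1 - 1 / d) := by gcongr
      _ = (1 - t) * (1 - 1 / d) + t ^ 2 / 2 * (1 - 1 / d) := by ring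
      _ ≤ (1 - t) * (1 - 1 / d) + t ^ 2 / 2 * 1 := by gcongr
      _ = _ := by ring
  have h4 : (1 - t) * (1 - 1 / (d:ℝ)) = 1 - (1 + Real.log d) / d := by
    rw [ht]
    field_simp
    ring
  have h5 : t ≤ 2 * (Real.log d / d) := by
    rw [ht, mul_div_assoc', div_le_div_iff₀ h0 hd0]
    nlinarith
  have h6 : t ^ 2 / 2 ≤ 2 * (Real.log d / d) ^ 2 := by
    calc t ^ 2 / 2 ≤ (2 * (Real.log d / d)) ^ 2 / 2 := by gcongr
      _ = _ := by ring
  linarith

theorem rr_ge_quarter {d : ℕ} (hd : 2 ≤ d) : 1 / 4 ≤ rr d := by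
  have hdr : (2:ℝ) ≤ d := by exact_mod_cast hd
  have h0 : 0 < (d:ℝ) - 1 := by linarith
  have hd0 : (0:ℝ) < d := by linarith
  rw [rr_eq hd]
  have h1 : 1 / 2 ≤ sr d := by
    by_contra hcon
    push Not at hcon
    have h2 : sr d ^ (d - 1) < (1 / 2) ^ (d - 1) :=
      pow_lt_pow_left₀ hcon (sr_pos d).le (by omega)
    rw [sr_pow hd, one_div_pow] at h2
    have h3 : (d:ℝ) ≤ 2 ^ (d - 1) := by
      have h4 : d - 1 < 2 ^ (d - 1) := Nat.lt_two_pow_self
      have h5 : d ≤ 2 ^ (d - 1) := by omega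
      exact_mod_cast h5
    have h6 : 1 / (2:ℝ) ^ (d - 1) ≤ 1 / d := one_div_le_one_div_of_le hd0 h3
    linarith
  have h2 : (1:ℝ) / 2 ≤ 1 - 1 / d := by
    have : 1 / (d:ℝ) ≤ 1 / 2 := one_div_le_one_div_of_le (by norm_num) hdr
    linarith
  calc (1:ℝ) / 4 = 1 / 2 * (1 / 2) := by norm_num
    _ ≤ _ := by gcongr

theorem hh_nonneg {d : ℕ} (hd : 2 ≤ d) : 0 ≤ hh d := by
  rw [hh_eq hd]; linarith [rr_lt_one hd]

theorem Bd_le {d : ℕ} (hd : 2 ≤ d) {δ : ℝ} (hδ : 0 ≤ δ) (hδ' : δ ≤ 4) :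
    Bd d δ ≤ δ + (1 + δ) * hh d + 300 / d := by
  have hdr : (2:ℝ) ≤ d := by exact_mod_cast hd
  have h0 : 0 < (d:ℝ) - 1 := by linarith
  have hd0 : (0:ℝ) < d := by linarith
  have hlog : 0 ≤ Real.log d := Real.log_nonneg (by linarith)
  have hrr := rr_pos hd
  have hr4 := rr_ge_quarter hd
  have hh0 := hh_nonneg hd
  have he : rr d = 1 - hh d := by rw [hh_eq hd]; ring
  set q := 1 / ((d:ℝ) - 1) with hq
  have hq0 : 0 < q := by positivity
  have hqd : q ≤ 2 / d := by
    rw [hq, div_le_div_iff₀ h0 hd0]; linarith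
  have hq1 : q ≤ 1 := by rw [hq, div_le_one h0]; linarith
  have hR : RR d = 1 + q := rfl
  have hhq : hh d ^ 2 ≤ 4 * q := by
    have h1 : hh d ≤ (1 + Real.log d) * q := by
      refine (hh_le hd).trans ?_
      rw [hq, div_eq_mul_one_div]
      have : 1 / (d:ℝ) ≤ 1 / ((d:ℝ) - 1) := one_div_le_one_div_of_le h0 (by linarith)
      gcongr
    calc hh d ^ 2 ≤ ((1 + Real.log d) * q) ^ 2 := by gcongr
      _ = (Real.log d + 1) ^ 2 * q ^ 2 := by ring
      _ ≤ (4 * ((d:ℝ) - 1)) * q ^ 2 := by gcongr; exact log_add_one_sq hdr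
      _ = 4 * q := by rw [hq]; field_simp
  have h1 : RR d / rr d ≤ 1 + hh d + 20 * q := by
    rw [div_le_iff₀ hrr]
    have h2 : (1 + hh d + 20 * q) * rr d = 1 - hh d ^ 2 + 20 * q * rr d := by
      rw [he]; ring
    rw [h2, hR]
    nlinarith
  have h3 : ee d ≤ 14 * q := by
    have hpi : Real.pi ≤ 3.5 := by have := Real.pi_lt_d2; linarith
    have : ee d = (1 + q) * (2 * Real.pi * q) := by
      unfold ee RR
      rw [hq]; ring
    rw [this]
    have hpi0 := Real.pi_pos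
    calc (1 + q) * (2 * Real.pi * q) ≤ (1 + 1) * (2 * 3.5 * q) := by gcongr
      _ = 14 * q := by ring
  have h4 : (RR d / rr d) * δ ≤ (1 + hh d + 20 * q) * δ := by gcongr
  have h5 : 20 * q * δ ≤ 80 * q := by nlinarith
  have h6 : 110 * q ≤ 300 / d := by
    have : (300:ℝ) / d = 150 * (2 / d) := by ring
    rw [this]; linarith
  unfold Bd
  have h7 : RR d - rr d = hh d + q := by rw [hR, he]; ring
  rw [h7]
  nlinarith

theorem upper' {d : ℕ} (hd : 2 ≤ d) {x y : ℂ} (hx : x ∈ multibrotSet d)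
    (hy : y ∈ multibrotSet d) :
    ∃ S : Set ℂ, S ⊆ multibrotSet d ∧ IsCompact S ∧ IsConnected S ∧ x ∈ S ∧ y ∈ S ∧
      Metric.diam S ≤ dist x y + (1 + dist x y) * hh d + 300 / d := by
  obtain ⟨S, h1, h2, h3, h4, h5, h6⟩ := upper hd hx hy
  refine ⟨S, h1, h2, h3, h4, h5, h6.trans (Bd_le hd dist_nonneg ?_)⟩
  have := norm_le_two hd hx
  have := norm_le_two hd hy
  have := dist_le_norm_add_norm x y
  linarith

/-- a period two centre -/
theorem mem_center {d : ℕ} (hd : 2 ≤ d) {c : ℂ} (hc : c ^ (d - 1) = -1) : c ∈ multibrotSet d := by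
  rw [mem_multibrot_iff hd]
  have hcd : c ^ d = -c := by
    have : d = (d - 1) + 1 := by omega
    rw [this, pow_succ, hc]; ring
  have hn : ‖c‖ = 1 := by
    have h1 : ‖c‖ ^ (d - 1) = 1 := by rw [← norm_pow, hc]; simp
    exact (pow_eq_one_iff_of_nonneg (norm_nonneg _) (by omega)).1 h1
  have key : ∀ k, P d k c = 0 ∨ P d k c = c := by
    intro k
    induction k with
    | zero => left; exact P_zero d c
    | succ k ih =>
      rw [P_succ]
      rcases ih with h | h
      · right; rw [h, zero_pow (by omega), zero_add]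
      · left; rw [h, hcd]; ring
  intro k
  rcases key k with h | h
  · rw [h, norm_zero]; norm_num
  · rw [h, hn]; norm_num

/-- the cusp rays separate -/
theorem lower {d : ℕ} (hd : 3 ≤ d) :
    ∃ x ∈ multibrotSet d, ∃ y ∈ multibrotSet d, dist x y ≤ 2 * Real.pi / (d - 1) ∧
      ∀ S : Set ℂ, S ⊆ multibrotSet d → IsConnected S → x ∈ S → y ∈ S →
        hh d ≤ Metric.diam S := by
  have hdr : (3:ℝ) ≤ d := by exact_mod_cast hd
  have h0 : 0 < (d:ℝ) - 1 := by linarith
  have hd2 : 2 ≤ d := by omega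
  have hd1 : ((d - 1 : ℕ) : ℝ) = (d : ℝ) - 1 := by
    rw [Nat.cast_sub (by omega)]; simp
  have hpi := Real.pi_pos
  set α : ℝ := Real.pi / ((d:ℝ) - 1) with hα
  have hα0 : 0 < α := by positivity
  have hα1 : 2 * α ≤ Real.pi := by
    rw [hα, mul_div_assoc', div_le_iff₀ h0]; nlinarith
  have hpow : ∀ k : ℤ, (Complex.exp ((((k:ℝ) * α : ℝ) : ℂ) * I)) ^ (d - 1)
      = Complex.exp (((k * Real.pi : ℝ) : ℂ) * I) := by
    intro k
    rw [← Complex.exp_nat_mul]
    congr 1
    have : (((d - 1 : ℕ) : ℂ)) * ((((k:ℝ) * α : ℝ) : ℂ) * I)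
        = (((((d - 1 : ℕ) : ℝ)) * (k * α) : ℝ) : ℂ) * I := by
      push_cast; ring
    rw [this, hd1]
    congr 2
    rw [hα]; field_simp
  have hx : Complex.exp ((α : ℂ) * I) ∈ multibrotSet d := by
    apply mem_center hd2
    have := hpow 1
    simpa using this
  have hy : Complex.exp (((-α : ℝ) : ℂ) * I) ∈ multibrotSet d := by
    apply mem_center hd2
    have := hpow (-1)
    simp only [Int.cast_neg, Int.cast_one, neg_mul, one_mul] at this
    rw [this]
    push_cast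
    rw [neg_mul, Complex.exp_neg, Complex.exp_pi_mul_I]
    norm_num
  refine ⟨_, hx, _, hy, ?_, ?_⟩
  · have h := dist_exp_le (z := (α : ℂ) * I) (z' := ((-α : ℝ) : ℂ) * I)
    refine h.trans ?_
    simp only [Complex.mul_re, Complex.ofReal_re, Complex.I_re, mul_zero, Complex.ofReal_im,
      Complex.I_im, mul_one, sub_self, Real.exp_zero, abs_zero, zero_add, Complex.mul_im,
      one_mul, add_zero]
    have : α - -α = 2 * α := by ring
    rw [this, abs_of_pos (by positivity), hα]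
    apply le_of_eq; ring
  · intro S hSM hS hxS hyS
    -- some point of `S` lies in the inner disc
    have key : ∃ z ∈ S, ‖z‖ ≤ rr d := by
      by_contra hcon
      push Not at hcon
      set ω : ℂ := Complex.exp (((-α : ℝ) : ℂ) * I) with hω
      let g : ℂ → ℝ := fun z => (ω * z).re - Real.cos α * ‖z‖
      have hg : Continuous g := by fun_prop
      have hω1 : ω * Complex.exp ((α : ℂ) * I) = 1 := by
        rw [hω, ← Complex.exp_add]
        push_cast
        simp
      have hcos1 : Real.cos α < 1 := by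
        rw [← Real.cos_zero]
        exact Real.cos_lt_cos_of_nonneg_of_le_pi le_rfl (by linarith) hα0
      have hcos2 : Real.cos (2 * α) < Real.cos α :=
        Real.cos_lt_cos_of_nonneg_of_le_pi hα0.le hα1 (by linarith)
      have hgx : 0 < g (Complex.exp ((α : ℂ) * I)) := by
        show 0 < (ω * Complex.exp ((α : ℂ) * I)).re - Real.cos α * ‖Complex.exp ((α : ℂ) * I)‖
        rw [hω1, Complex.norm_exp_ofReal_mul_I]
        simp only [Complex.one_re, mul_one]
        linarith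
      have hgy : g ω < 0 := by
        show (ω * ω).re - Real.cos α * ‖ω‖ < 0
        have h1 : ω * ω = Complex.exp (((-(2 * α) : ℝ) : ℂ) * I) := by
          rw [hω, ← Complex.exp_add]
          congr 1
          push_cast; ring
        rw [h1, hω, Complex.norm_exp_ofReal_mul_I, Complex.exp_ofReal_mul_I_re, Real.cos_neg]
        linarith
      have hpre := (hS.isPreconnected.image g hg.continuousOn)
      have hmem0 : (0:ℝ) ∈ g '' S := by
        have h1 : g ω ∈ g '' S := ⟨ω, hyS, rfl⟩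
        have h2 : g (Complex.exp ((α : ℂ) * I)) ∈ g '' S := ⟨_, hxS, rfl⟩
        exact hpre.ordConnected.out h1 h2 ⟨hgy.le, hgx.le⟩
      obtain ⟨z, hzS, hz⟩ := hmem0
      have hzr := hcon z hzS
      have hzpos : 0 < ‖z‖ := lt_trans (rr_pos hd2) hzr
      have hz' : (ω * z).re = Real.cos α * ‖z‖ := by
        have : (ω * z).re - Real.cos α * ‖z‖ = 0 := hz
        linarith
      have hωn : ‖ω‖ = 1 := by rw [hω]; exact Complex.norm_exp_ofReal_mul_I _
      -- `ω z = |z| e^{± i α}`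
      have him : (ω * z).im ^ 2 = (Real.sin α * ‖z‖) ^ 2 := by
        have h1 : (ω * z).re ^ 2 + (ω * z).im ^ 2 = ‖z‖ ^ 2 := by
          have h2 : ‖ω * z‖ ^ 2 = (ω * z).re ^ 2 + (ω * z).im ^ 2 := by
            rw [← Complex.normSq_eq_norm_sq, Complex.normSq_apply]; ring
          rw [← h2, norm_mul, hωn, one_mul]
        have h3 := Real.sin_sq_add_cos_sq α
        rw [hz'] at h1
        nlinarith
      have hsign : (ω * z).im = Real.sin α * ‖z‖ ∨ (ω * z).im = -(Real.sin α * ‖z‖) :=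
        sq_eq_sq_iff_eq_or_eq_neg.1 him
      have hzform : ∃ k : ℤ, (k = 2 ∨ k = 0) ∧
          z = Complex.exp ((((k:ℝ) * α : ℝ) : ℂ) * I) * ((‖z‖ : ℝ) : ℂ) := by
        have hinv : Complex.exp ((α : ℂ) * I) * (ω * z) = z := by
          rw [← mul_assoc, mul_comm (Complex.exp ((α : ℂ) * I)) ω, hω1, one_mul]
        rcases hsign with h | h
        · refine ⟨2, Or.inl rfl, ?_⟩
          have h1 : ω * z = Complex.exp ((α : ℂ) * I) * ((‖z‖ : ℝ) : ℂ) := by
            apply Complex.ext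
            · rw [hz', Complex.re_mul_ofReal, Complex.exp_ofReal_mul_I_re]
            · rw [h, Complex.im_mul_ofReal, Complex.exp_ofReal_mul_I_im]
          calc z = Complex.exp ((α : ℂ) * I) * (ω * z) := hinv.symm
            _ = Complex.exp ((α : ℂ) * I) * (Complex.exp ((α : ℂ) * I) * ((‖z‖ : ℝ) : ℂ)) := by
                rw [h1]
            _ = _ := by
                rw [← mul_assoc, ← Complex.exp_add]
                congr 2
                push_cast; ring
        · refine ⟨0, Or.inr rfl, ?_⟩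
          have h1 : ω * z = Complex.exp (((-α : ℝ) : ℂ) * I) * ((‖z‖ : ℝ) : ℂ) := by
            apply Complex.ext
            · rw [hz', Complex.re_mul_ofReal, Complex.exp_ofReal_mul_I_re, Real.cos_neg]
            · rw [h, Complex.im_mul_ofReal, Complex.exp_ofReal_mul_I_im, Real.sin_neg]; ring
          calc z = Complex.exp ((α : ℂ) * I) * (ω * z) := hinv.symm
            _ = Complex.exp ((α : ℂ) * I) *
                (Complex.exp (((-α : ℝ) : ℂ) * I) * ((‖z‖ : ℝ) : ℂ)) := by rw [h1]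
            _ = _ := by
                rw [← mul_assoc, ← Complex.exp_add]
                congr 2
                push_cast; ring
      obtain ⟨k, hk, hzk⟩ := hzform
      have hroot : (Complex.exp ((((k:ℝ) * α : ℝ) : ℂ) * I)) ^ (d - 1) = 1 := by
        rw [hpow k]
        rcases hk with rfl | rfl
        · push_cast
          rw [Complex.exp_two_pi_mul_I]
        · simp
      have hesc := cusp_escape hd2 hzr hroot
      rw [← hzk] at hesc
      exact hesc (hSM hzS)
    obtain ⟨z, hzS, hz⟩ := key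
    have hbdd : IsBounded S := (isCompact_multibrot hd2).isBounded.subset hSM
    have h1 := Metric.dist_le_diam_of_mem hbdd hxS hzS
    have h2 : 1 - rr d ≤ dist (Complex.exp ((α : ℂ) * I)) z := by
      rw [dist_eq_norm]
      have h3 := norm_sub_norm_le (Complex.exp ((α : ℂ) * I)) z
      rw [Complex.norm_exp_ofReal_mul_I] at h3
      linarith
    rw [hh_eq hd2]
    linarith

end Pool.Agent.TH937.SC
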